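import Pool.Agent.Lib.MP_fee02f_an.RR.Defs

/-!
# Rough midpoint spaces (MP_fee02f_an)

A common generalisation of `CAT(0)` spaces (`Φ a u = d(a, u)²`, exact midpoint inequality), Gromov
hyperbolic spaces, and groups with coarse midpoints (`GL_n` over a local field and its reductive
subgroups). Everything is allowed to hold up to bounded errors. No completeness, no equivariance of
the midpoints and no freeness is assumed.
-/

set_option autoImplicit false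

namespace RapidDecay

/-- A `Γ`-space with rough midpoints and covers of bounded multiplicity at all scales. `Φ a u` is
the potential of the point `u` seen from `a` (comparable with `d a u ^ 2`). -/
structure MidSpace (Γ X : Type*) [Group Γ] [MulAction Γ X] where
  C : ℝ
  one_le : 1 ≤ C
  d : X → X → ℝ
  d_nonneg : ∀ x y, 0 ≤ d x y
  d_comm : ∀ x y, d x y = d y x
  d_tri : ∀ x y z, d x z ≤ d x y + d y z
  d_smul : ∀ (g : Γ) (x y : X), d (g • x) (g • y) = d x y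
  Φ : X → X → ℝ
  Φ_nonneg : ∀ a u, 0 ≤ Φ a u
  Φ_smul : ∀ (g : Γ) (a u : X), Φ (g • a) (g • u) = Φ a u
  Φ_le : ∀ a u, Φ a u ≤ C * (1 + d a u) ^ 2
  le_Φ : ∀ a u, d a u ≤ C * (1 + Real.sqrt (Φ a u))
  mid : ∀ a b : X, ∃ m : X, ∀ u : X,
    2 * Φ m u + d a b ^ 2 / C ≤ Φ a u + Φ b u + C * (1 + d a u + d b u)
  μ : ℕ
  cov : ∀ R : ℝ, 1 ≤ R → ∃ 𝒱 : Set (Set X), (∀ V ∈ 𝒱, ∀ x ∈ V, ∀ y ∈ V, d x y ≤ C * R) ∧
    (∀ x y z : X, d x y ≤ R → d y z ≤ R → ∃ V ∈ 𝒱, x ∈ V ∧ y ∈ V ∧ z ∈ V) ∧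
    ∀ x, {V ∈ 𝒱 | x ∈ V}.encard ≤ μ

/-- uniform discreteness of the action on a rough midpoint space -/
def MidSpace.UDisc {Γ X : Type*} [Group Γ] [MulAction Γ X] (S : MidSpace Γ X) : Prop :=
  ∀ R : ℝ, ∃ b : ℕ, ∀ x : X, {g : Γ | S.d (g • x) x ≤ R}.encard ≤ b

end RapidDecay
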