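import Pool.Agent.Lib.MP_fee02f_an.MS.Defs

/-!
# Hulls by rough circumcentres

A rough midpoint space `X` gives a hull space structure on `Γ × X`: the size of the hull of a finite
family is the minimal radius `inf_a max_i Φ a (u i)`, the hull is a rough circumcentre; the factor
`Γ` makes the action free, so that the choice can be made equivariantly.
-/

set_option autoImplicit false

open scoped ENNReal

namespace RapidDecay

namespace MidSpace

variable {Γ X : Type*} [Group Γ] [MulAction Γ X] (S : MidSpace Γ X)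

/-- the upper bounds for the potential of the family from one point -/
def radSet (u : ℕ → X) (I : Finset ℕ) : Set ℝ :=
  {t | 0 ≤ t ∧ ∃ a : X, ∀ i ∈ I, S.Φ a (u i) ≤ t}

/-- the rough circumradius (squared) -/
noncomputable def rad (u : ℕ → X) (I : Finset ℕ) : ℝ := sInf (S.radSet u I)

theorem radSet_bddBelow (u : ℕ → X) (I : Finset ℕ) : BddBelow (S.radSet u I) :=
  ⟨0, fun _ ht => ht.1⟩

theorem sum_mem_radSet (u : ℕ → X) (I : Finset ℕ) (a : X) :
    ∑ i ∈ I, S.Φ a (u i) ∈ S.radSet u I :=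
  ⟨Finset.sum_nonneg fun i _ => S.Φ_nonneg a (u i), a, fun _ hi =>
    Finset.single_le_sum (f := fun i => S.Φ a (u i)) (fun j _ => S.Φ_nonneg a (u j)) hi⟩

theorem radSet_nonempty (u : ℕ → X) (I : Finset ℕ) : (S.radSet u I).Nonempty :=
  ⟨_, S.sum_mem_radSet u I (u 0)⟩

theorem rad_nonneg (u : ℕ → X) (I : Finset ℕ) : 0 ≤ S.rad u I :=
  le_csInf (S.radSet_nonempty u I) fun _ ht => ht.1

theorem rad_le {u : ℕ → X} {I : Finset ℕ} {t : ℝ} (ht : 0 ≤ t) (a : X)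
    (h : ∀ i ∈ I, S.Φ a (u i) ≤ t) : S.rad u I ≤ t :=
  csInf_le (S.radSet_bddBelow u I) ⟨ht, a, h⟩

theorem rad_mono {u : ℕ → X} {I I' : Finset ℕ} (h : I' ⊆ I) : S.rad u I' ≤ S.rad u I :=
  csInf_le_csInf (S.radSet_bddBelow u I') (S.radSet_nonempty u I) fun _ ht =>
    ⟨ht.1, ht.2.imp fun _ ha i hi => ha i (h hi)⟩

theorem rad_congr {u w : ℕ → X} {I : Finset ℕ} (h : ∀ i ∈ I, u i = w i) :
    S.rad u I = S.rad w I := by
  unfold rad
  congr 1
  ext t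
  constructor
  · rintro ⟨h0, a, ha⟩
    exact ⟨h0, a, fun i hi => by rw [← h i hi]; exact ha i hi⟩
  · rintro ⟨h0, a, ha⟩
    exact ⟨h0, a, fun i hi => by rw [h i hi]; exact ha i hi⟩

theorem rad_smul (g : Γ) (u : ℕ → X) (I : Finset ℕ) :
    S.rad (fun i => g • u i) I = S.rad u I := by
  unfold rad
  congr 1
  ext t
  constructor
  · rintro ⟨h0, a, ha⟩
    refine ⟨h0, g⁻¹ • a, fun i hi => ?_⟩
    have h1 := S.Φ_smul g (g⁻¹ • a) (u i)
    rw [smul_inv_smul] at h1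
    rw [← h1]
    exact ha i hi
  · rintro ⟨h0, a, ha⟩
    refine ⟨h0, g • a, fun i hi => ?_⟩
    simp only [S.Φ_smul]
    exact ha i hi

theorem exists_cen (u : ℕ → X) (I : Finset ℕ) :
    ∃ a : X, ∀ i ∈ I, S.Φ a (u i) ≤ S.rad u I + 1 := by
  obtain ⟨t, ⟨_, a, ha⟩, hlt⟩ := exists_lt_of_csInf_lt (S.radSet_nonempty u I)
    (show sInf (S.radSet u I) < S.rad u I + 1 by unfold rad; linarith)
  exact ⟨a, fun i hi => (ha i hi).trans hlt.le⟩

/-- a rough circumcentre -/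
noncomputable def cen (u : ℕ → X) (I : Finset ℕ) : X := (S.exists_cen u I).choose

theorem cen_spec (u : ℕ → X) (I : Finset ℕ) :
    ∀ i ∈ I, S.Φ (S.cen u I) (u i) ≤ S.rad u I + 1 := (S.exists_cen u I).choose_spec

/-- the family normalised by the first frame -/
noncomputable def nrm (u : ℕ → Γ × X) (I : Finset ℕ) (h : I.Nonempty) (i : ℕ) : X :=
  if i ∈ I then (u (I.min' h)).1⁻¹ • (u i).2 else (u (I.min' h)).1⁻¹ • (u (I.min' h)).2

/-- the equivariant rough circumcentre -/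
noncomputable def hl (u : ℕ → Γ × X) (I : Finset ℕ) : Γ × X :=
  if h : I.Nonempty then ((u (I.min' h)).1, (u (I.min' h)).1 • S.cen (nrm u I h) I) else u 0

theorem nrm_congr {u w : ℕ → Γ × X} {I : Finset ℕ} (h : I.Nonempty) (huw : ∀ i ∈ I, u i = w i) :
    nrm u I h = nrm w I h := by
  funext i
  unfold nrm
  rw [huw _ (I.min'_mem h)]
  split
  · next hi => rw [huw i hi]
  · rfl

theorem nrm_smul (g : Γ) (u : ℕ → Γ × X) (I : Finset ℕ) (h : I.Nonempty) :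
    nrm (fun i => g • u i) I h = nrm u I h := by
  funext i
  unfold nrm
  simp only [Prod.smul_fst, Prod.smul_snd, smul_eq_mul, mul_inv_rev, mul_smul, inv_smul_smul]

theorem hl_congr' (u w : ℕ → Γ × X) (I : Finset ℕ) (hI : I.Nonempty)
    (huw : ∀ i ∈ I, u i = w i) : S.hl u I = S.hl w I := by
  unfold hl
  rw [dif_pos hI, dif_pos hI, nrm_congr hI huw, huw _ (I.min'_mem hI)]

theorem hl_smul' (g : Γ) (u : ℕ → Γ × X) (I : Finset ℕ) (hI : I.Nonempty) :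
    S.hl (fun i => g • u i) I = g • S.hl u I := by
  unfold hl
  rw [dif_pos hI, dif_pos hI, nrm_smul]
  simp only [Prod.smul_fst, smul_eq_mul, mul_smul, Prod.smul_mk]

theorem hl_spec (u : ℕ → Γ × X) (I : Finset ℕ) :
    ∀ i ∈ I, S.Φ (S.hl u I).2 (u i).2 ≤ S.rad (fun i => (u i).2) I + 1 := by
  intro i hi
  have hI : I.Nonempty := ⟨i, hi⟩
  set γ : Γ := (u (I.min' hI)).1 with hγ
  have h1 : (S.hl u I).2 = γ • S.cen (nrm u I hI) I := by
    unfold hl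
    rw [dif_pos hI]
  have h2 : nrm u I hI i = γ⁻¹ • (u i).2 := by
    unfold nrm
    rw [if_pos hi]
  have h3 : S.rad (nrm u I hI) I = S.rad (fun i => (u i).2) I := by
    rw [← S.rad_smul γ⁻¹ (fun i => (u i).2) I]
    refine S.rad_congr fun j hj => ?_
    unfold nrm
    rw [if_pos hj]
  have h4 := S.cen_spec (nrm u I hI) I i hi
  rw [h2, h3] at h4
  rw [h1]
  have h5 := S.Φ_smul γ (S.cen (nrm u I hI) I) (γ⁻¹ • (u i).2)
  rw [smul_inv_smul] at h5
  rw [h5]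
  exact h4

/-- the radius of a family in a ball of radius `C * R` -/
theorem rad_le_of_ball {u : ℕ → X} {I : Finset ℕ} {R : ℝ} (hR : 1 ≤ R) (z : X)
    (h : ∀ i ∈ I, S.d (u i) z ≤ S.C * R) : S.rad u I ≤ 4 * S.C ^ 3 * R ^ 2 := by
  have hC := S.one_le
  have hCR : 1 ≤ S.C * R := by nlinarith
  refine S.rad_le (by positivity) z fun i hi => ?_
  have h1 : S.d z (u i) ≤ S.C * R := by rw [S.d_comm]; exact h i hi
  have h2 := S.d_nonneg z (u i)
  calc S.Φ z (u i) ≤ S.C * (1 + S.d z (u i)) ^ 2 := S.Φ_le _ _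
    _ ≤ S.C * (2 * (S.C * R)) ^ 2 := by
        apply mul_le_mul_of_nonneg_left _ (by linarith)
        apply pow_le_pow_left₀ (by linarith)
        linarith
    _ = 4 * S.C ^ 3 * R ^ 2 := by ring

theorem dist_le_of_Φ {a x : X} {R : ℝ} (hR : 1 ≤ R) (h : S.Φ a x ≤ 4 * S.C ^ 3 * R ^ 2 + 1) :
    S.d a x ≤ 4 * S.C ^ 3 * R := by
  have hC := S.one_le
  have hC2 : S.C ≤ S.C ^ 2 := by nlinarith
  have hC3 : S.C ^ 2 ≤ S.C ^ 3 := by nlinarith [sq_nonneg S.C]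
  have hC4 : S.C ^ 3 ≤ S.C ^ 4 := by nlinarith [pow_pos (lt_of_lt_of_le one_pos hC) 3]
  have h1 : Real.sqrt (S.Φ a x) ≤ 2 * S.C ^ 2 * R + 1 := by
    rw [show 2 * S.C ^ 2 * R + 1 = Real.sqrt ((2 * S.C ^ 2 * R + 1) ^ 2) by
      rw [Real.sqrt_sq (by positivity)]]
    apply Real.sqrt_le_sqrt
    have : 4 * S.C ^ 3 * R ^ 2 ≤ 4 * S.C ^ 4 * R ^ 2 := by
      apply mul_le_mul_of_nonneg_right _ (by positivity)
      linarith
    nlinarith [mul_pos (pow_pos (lt_of_lt_of_le one_pos hC) 2) (lt_of_lt_of_le one_pos hR)]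
  calc S.d a x ≤ S.C * (1 + Real.sqrt (S.Φ a x)) := S.le_Φ _ _
    _ ≤ S.C * (1 + (2 * S.C ^ 2 * R + 1)) := by
        apply mul_le_mul_of_nonneg_left _ (by linarith)
        linarith
    _ = 2 * S.C ^ 3 * R + 2 * S.C := by ring
    _ ≤ 2 * S.C ^ 3 * R + 2 * S.C ^ 3 * R := by
        have : S.C ≤ S.C ^ 3 * R := by nlinarith [pow_pos (lt_of_lt_of_le one_pos hC) 3]
        linarith
    _ = 4 * S.C ^ 3 * R := by ring

/-- the key estimate: rough circumcentres of nested families with almost the same radius -/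
theorem sq_dist_le (u : ℕ → Γ × X) {I I' : Finset ℕ} {R : ℝ} (hR : 1 ≤ R) (hI' : I'.Nonempty)
    (hsub : I' ⊆ I) (z : X) (hz : ∀ i ∈ I, S.d (u i).2 z ≤ S.C * R) :
    S.d (S.hl u I').2 (S.hl u I).2 ^ 2 ≤
      S.C * (S.rad (fun i => (u i).2) I - S.rad (fun i => (u i).2) I')
        + (2 * S.C + S.C ^ 2 + 8 * S.C ^ 5) * R := by
  have hC := S.one_le
  have hC0 : 0 < S.C := by linarith
  set a := (S.hl u I').2 with ha
  set b := (S.hl u I).2 with hb
  set ρ := S.rad (fun i => (u i).2) I with hρ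
  set ρ' := S.rad (fun i => (u i).2) I' with hρ'
  have hρle : ρ ≤ 4 * S.C ^ 3 * R ^ 2 := S.rad_le_of_ball hR z hz
  have hρ'le : ρ' ≤ 4 * S.C ^ 3 * R ^ 2 :=
    S.rad_le_of_ball hR z fun i hi => hz i (hsub hi)
  obtain ⟨m, hm⟩ := S.mid a b
  have key : ∀ i ∈ I', S.Φ m (u i).2 ≤
      (ρ' + ρ + 2 + S.C * (1 + 8 * S.C ^ 3 * R) - S.d a b ^ 2 / S.C) / 2 := by
    intro i hi
    have h1 : S.Φ a (u i).2 ≤ ρ' + 1 := S.hl_spec u I' i hi
    have h2 : S.Φ b (u i).2 ≤ ρ + 1 := S.hl_spec u I i (hsub hi)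
    have h3 : S.d a (u i).2 ≤ 4 * S.C ^ 3 * R := S.dist_le_of_Φ hR (by linarith)
    have h4 : S.d b (u i).2 ≤ 4 * S.C ^ 3 * R := S.dist_le_of_Φ hR (by linarith)
    have h5 := hm (u i).2
    have h6 : S.C * (1 + S.d a (u i).2 + S.d b (u i).2) ≤ S.C * (1 + 8 * S.C ^ 3 * R) :=
      mul_le_mul_of_nonneg_left (by linarith) hC0.le
    linarith
  obtain ⟨i₀, hi₀⟩ := hI'
  have h0 : 0 ≤ (ρ' + ρ + 2 + S.C * (1 + 8 * S.C ^ 3 * R) - S.d a b ^ 2 / S.C) / 2 :=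
    (S.Φ_nonneg _ _).trans (key i₀ hi₀)
  have h7 : ρ' ≤ (ρ' + ρ + 2 + S.C * (1 + 8 * S.C ^ 3 * R) - S.d a b ^ 2 / S.C) / 2 :=
    S.rad_le h0 m key
  have h8 : S.d a b ^ 2 / S.C ≤ ρ - ρ' + 2 + S.C * (1 + 8 * S.C ^ 3 * R) := by linarith
  have h9 : S.d a b ^ 2 ≤ S.C * (ρ - ρ' + 2 + S.C * (1 + 8 * S.C ^ 3 * R)) := by
    rw [div_le_iff₀ hC0] at h8
    linarith
  have h10 : S.C * 2 + S.C ^ 2 ≤ (S.C * 2 + S.C ^ 2) * R := by
    nlinarith [sq_nonneg S.C]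
  have h11 : 8 * S.C ^ 5 * R = S.C * (S.C * (8 * S.C ^ 3 * R)) := by ring
  nlinarith

/-- the hull space of a rough midpoint space -/
noncomputable def hull : HullSpace Γ (Γ × X) where
  C := S.C
  one_le := S.one_le
  d x y := S.d x.2 y.2
  d_nonneg _ _ := S.d_nonneg _ _
  d_comm _ _ := S.d_comm _ _
  d_tri _ _ _ := S.d_tri _ _ _
  d_smul g x y := S.d_smul g x.2 y.2
  hl := S.hl
  hl_congr := S.hl_congr'
  hl_smul := S.hl_smul'
  v R u I := S.rad (fun i => (u i).2) I / (4 * S.C ^ 3 * R ^ 2)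
  mono R u I I' _ hsub := by
    have hC := S.one_le
    have h := S.rad_mono (u := fun i => (u i).2) hsub
    exact div_le_div_of_nonneg_right h (by positivity)
  bdd R hR z := by
    refine ⟨0, fun u I hI hz => ?_⟩
    have hC := S.one_le
    have h1 : S.rad (fun i => (u i).2) I ≤ 4 * S.C ^ 3 * R ^ 2 := S.rad_le_of_ball hR z.2 hz
    have h2 := S.rad_nonneg (fun i => (u i).2) I
    have h3 : 0 < 4 * S.C ^ 3 * R ^ 2 := by positivity
    rw [sub_zero, abs_of_nonneg (div_nonneg h2 h3.le), div_le_one h3]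
    exact h1
  close θ hθ := by
    have hC := S.one_le
    have hC0 : 0 < S.C := by linarith
    set K' := 2 * S.C + S.C ^ 2 + 8 * S.C ^ 5 with hK'
    have hK'0 : 0 < K' := by positivity
    refine ⟨θ ^ 2 / (4 * S.C ^ 4), K' / (2 * θ), by positivity, ?_⟩
    intro R hR u I I' z hI' hsub hz hv
    have hR0 : 0 < R := by linarith
    have h3 : 0 < 4 * S.C ^ 3 * R ^ 2 := by positivity
    have h1 := S.sq_dist_le u hR hI' hsub z.2 hz
    rw [← sub_div, div_le_iff₀ h3] at hv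
    have h2 : S.C * (S.rad (fun i => (u i).2) I - S.rad (fun i => (u i).2) I') ≤ θ ^ 2 * R ^ 2 := by
      calc S.C * (S.rad (fun i => (u i).2) I - S.rad (fun i => (u i).2) I')
          ≤ S.C * (θ ^ 2 / (4 * S.C ^ 4) * (4 * S.C ^ 3 * R ^ 2)) :=
            mul_le_mul_of_nonneg_left hv hC0.le
        _ = θ ^ 2 * R ^ 2 := by field_simp
    have h4 : S.d (S.hl u I').2 (S.hl u I).2 ^ 2 ≤ (θ * R + K' / (2 * θ)) ^ 2 := by
      have h5 : (θ * R + K' / (2 * θ)) ^ 2 = θ ^ 2 * R ^ 2 + K' * R + (K' / (2 * θ)) ^ 2 := by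
        field_simp
        ring
      rw [h5]
      have := sq_nonneg (K' / (2 * θ))
      linarith
    exact (pow_le_pow_iff_left₀ (S.d_nonneg _ _) (by positivity) two_ne_zero).1 h4
  μ := S.μ
  cov R hR := by
    obtain ⟨𝒱, h1, h2, h3⟩ := S.cov R hR
    refine ⟨(fun V => Prod.snd ⁻¹' V) '' 𝒱, ?_, ?_, ?_⟩
    · rintro _ ⟨V, hV, rfl⟩ x hx y hy
      exact h1 V hV x.2 hx y.2 hy
    · intro x y z hxy hyz
      obtain ⟨V, hV, hx, hy, hz⟩ := h2 x.2 y.2 z.2 hxy hyz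
      exact ⟨_, ⟨V, hV, rfl⟩, hx, hy, hz⟩
    · intro x
      refine le_trans ?_ (h3 x.2)
      refine le_trans (Set.encard_le_encard ?_) (Set.encard_image_le (fun V => Prod.snd ⁻¹' V) _)
      rintro _ ⟨⟨V, hV, rfl⟩, hx⟩
      exact ⟨V, ⟨hV, hx⟩, rfl⟩

theorem hull_uDisc (h : S.UDisc) : UDisc' S.hull := by
  intro R
  obtain ⟨b, hb⟩ := h R
  exact ⟨b, fun x => hb x.2⟩

@[simp] theorem hull_d (x y : Γ × X) : S.hull.d x y = S.d x.2 y.2 := rfl

end MidSpace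

end RapidDecay
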