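import Pool.Agent.Lib.MP_fee02f_an.MS.RD
import Pool.Agent.Lib.MP_fee02f_an.GG.Defs

/-!
# Groups with coarse midpoints are rough midpoint spaces

`Γ` acts on `G` by left multiplication through a homomorphism `φ : Γ →* G`; the potential is
`Φ (a⁻¹ * u)`, the midpoint of `a` and `b` is `a * m (a⁻¹ * b)`.
-/

set_option autoImplicit false


namespace RapidDecay

open RDG

/-- the action of `Γ` on `G` through a homomorphism -/
def ActVia {Γ G : Type*} [Group Γ] [Group G] (_φ : Γ →* G) : Type _ := G

instance {Γ G : Type*} [Group Γ] [Group G] (φ : Γ →* G) : MulAction Γ (ActVia φ) where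
  smul g x := (φ g * (show G from x) : G)
  one_smul x := by
    change (φ 1 * (show G from x) : G) = x
    rw [map_one, one_mul]
  mul_smul g h x := by
    change (φ (g * h) * (show G from x) : G) = φ g * (φ h * (show G from x))
    rw [map_mul, mul_assoc]

/-- a group with coarse midpoints is a rough midpoint space -/
noncomputable def rgeoMid {Γ G : Type*} [Group Γ] [Group G] (M : RGeo G) (φ : Γ →* G) :
    MidSpace Γ (ActVia φ) where
  C := 2 * M.C
  one_le := by linarith [M.one_le]
  d x y := M.ℓ ((show G from x)⁻¹ * (show G from y))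
  d_nonneg _ _ := M.nonneg _
  d_comm x y := by
    rw [← M.inv, mul_inv_rev, inv_inv]
  d_tri x y z := by
    have h := M.mul_le ((show G from x)⁻¹ * (show G from y)) ((show G from y)⁻¹ * (show G from z))
    rwa [mul_assoc, mul_inv_cancel_left] at h
  d_smul g x y := by
    change M.ℓ ((φ g * (show G from x))⁻¹ * (φ g * (show G from y))) = _
    rw [mul_inv_rev, mul_assoc, inv_mul_cancel_left]
  Φ a u := M.Φ ((show G from a)⁻¹ * (show G from u))
  Φ_nonneg _ _ := M.Φ_nonneg _
  Φ_smul g x y := by
    change M.Φ ((φ g * (show G from x))⁻¹ * (φ g * (show G from y))) = _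
    rw [mul_inv_rev, mul_assoc, inv_mul_cancel_left]
  Φ_le a u := by
    have h := M.Φ_le ((show G from a)⁻¹ * (show G from u))
    have h2 := M.one_le
    refine h.trans (mul_le_mul_of_nonneg_right (by linarith) (sq_nonneg _))
  le_Φ a u := by
    have h := M.le_Φ ((show G from a)⁻¹ * (show G from u))
    have h2 := M.one_le
    exact h.trans (mul_le_mul_of_nonneg_right (by linarith) (by positivity))
  mid a b := by
    have hC := M.one_le
    refine ⟨((show G from a) * M.m ((show G from a)⁻¹ * (show G from b)) : G), fun u => ?_⟩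
    have h := M.mid ((show G from a)⁻¹ * (show G from b)) ((show G from a)⁻¹ * (show G from u))
    have e1 : ((show G from a) * M.m ((show G from a)⁻¹ * (show G from b)))⁻¹ * (show G from u)
        = (M.m ((show G from a)⁻¹ * (show G from b)))⁻¹ * ((show G from a)⁻¹ * (show G from u)) := by
      rw [mul_inv_rev, mul_assoc]
    have e2 : ((show G from a)⁻¹ * (show G from b))⁻¹ * ((show G from a)⁻¹ * (show G from u))
        = (show G from b)⁻¹ * (show G from u) := by group
    change 2 * M.Φ (((show G from a) * M.m ((show G from a)⁻¹ * (show G from b)))⁻¹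
      * (show G from u)) + _ ≤ _
    rw [e1]
    rw [e2] at h
    have h3 : M.ℓ ((show G from a)⁻¹ * (show G from b)) ≤
        M.ℓ ((show G from a)⁻¹ * (show G from u)) + M.ℓ ((show G from b)⁻¹ * (show G from u)) := by
      have := M.mul_le ((show G from a)⁻¹ * (show G from u)) ((show G from u)⁻¹ * (show G from b))
      rw [mul_assoc, mul_inv_cancel_left, ← M.inv ((show G from u)⁻¹ * _), mul_inv_rev, inv_inv]
        at this
      exact this
    have h4 : M.ℓ ((show G from a)⁻¹ * (show G from b)) ^ 2 / (2 * M.C) ≤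
        M.ℓ ((show G from a)⁻¹ * (show G from b)) ^ 2 / M.C :=
      div_le_div_of_nonneg_left (sq_nonneg _) (by linarith) (by linarith)
    have h5 := M.nonneg ((show G from a)⁻¹ * (show G from u))
    have h6 := M.nonneg ((show G from b)⁻¹ * (show G from u))
    nlinarith
  μ := ⌊M.C⌋₊
  cov R hR := by
    obtain ⟨𝒰, h1, h2, h3⟩ := M.cover (2 * R) (by linarith)
    refine ⟨𝒰, fun V hV x hx y hy => ?_, fun x y z hxy hyz => ?_, fun x => ?_⟩
    · have := h1 V hV x hx y hy
      calc _ ≤ M.C * (2 * R) := this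
        _ = 2 * M.C * R := by ring
    · have h4 := M.mul_le ((show G from x)⁻¹ * (show G from y))
        ((show G from y)⁻¹ * (show G from z))
      rw [mul_assoc, mul_inv_cancel_left] at h4
      refine h3 x y z ?_ ?_ ?_
      · exact hxy.trans (by linarith)
      · exact h4.trans (by linarith [hxy, hyz])
      · exact hyz.trans (by linarith)
    · obtain ⟨h4, h5⟩ := h2 (show G from x)
      have h6 : {U ∈ 𝒰 | (show G from x) ∈ U}.ncard ≤ ⌊M.C⌋₊ := Nat.le_floor h5
      have h7 : {U ∈ 𝒰 | (show G from x) ∈ U}.encard ≤ ((⌊M.C⌋₊ : ℕ) : ℕ∞) := by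
        rw [← h4.cast_ncard_eq]
        exact_mod_cast h6
      exact h7

theorem rgeoMid_uDisc {Γ G : Type*} [Group Γ] [Group G] (M : RGeo G) (φ : Γ →* G)
    (h : ∀ r : ℝ, ∃ N : ℕ, ∀ b : G, {γ : Γ | M.ℓ (b⁻¹ * φ γ * b) ≤ r}.encard ≤ N) :
    (rgeoMid M φ).UDisc := by
  intro r
  obtain ⟨N, hN⟩ := h r
  refine ⟨N, fun x => ?_⟩
  refine le_trans (le_of_eq ?_) (hN (show G from x))
  congr 1
  ext g
  have e : M.ℓ ((φ g * (show G from x))⁻¹ * (show G from x)) =
      M.ℓ ((show G from x)⁻¹ * φ g * (show G from x)) := by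
    rw [← M.inv]
    congr 1
    group
  change M.ℓ ((φ g * (show G from x))⁻¹ * (show G from x)) ≤ r ↔
    M.ℓ ((show G from x)⁻¹ * φ g * (show G from x)) ≤ r
  rw [e]

/-- uniformly proper homomorphisms to groups with coarse midpoints: rapid decay -/
theorem rd_of_rgeo {Γ G : Type*} [Group Γ] [Group G] (M : RGeo G) (φ : Γ →* G)
    (h : ∀ r : ℝ, ∃ N : ℕ, ∀ b : G, {γ : Γ | M.ℓ (b⁻¹ * φ γ * b) ≤ r}.encard ≤ N) :
    RDWith (fun g : Γ => M.ℓ (φ g)) := by
  have h1 := (rgeoMid M φ).rd (rgeoMid_uDisc M φ h) (show ActVia φ from (1 : G))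
  have e : (fun g : Γ => (rgeoMid M φ).d (g • (show ActVia φ from (1 : G)))
      (show ActVia φ from (1 : G))) = fun g : Γ => M.ℓ (φ g) := by
    funext g
    change M.ℓ ((φ g * 1)⁻¹ * 1) = M.ℓ (φ g)
    rw [mul_one, mul_one, M.inv]
  rwa [e] at h1

end RapidDecay
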