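import Pool.Agent.Lib.MP_fee02f_an.MS.Hull
import Pool.Agent.Lib.MP_fee02f_an.RR.R13

/-!
# Rapid decay for uniformly discrete actions on rough midpoint spaces
-/

set_option autoImplicit false

namespace RapidDecay

/-- uniformly discrete groups acting on rough midpoint spaces have the rapid decay property -/
theorem MidSpace.rd {Γ X : Type*} [Group Γ] [MulAction Γ X] (S : MidSpace Γ X) (h : S.UDisc)
    (o : X) : RDWith (fun g : Γ => S.d (g • o) o) :=
  rd_of_hullSpace S.hull (S.hull_uDisc h) ((1 : Γ), o)

end RapidDecay
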